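import Pool.Agent.Helper87.VM.Lib2

/-!
Local generation of the ideal of `Z` in `{x₀ = 0}` by forms of large degree.
-/

set_option autoImplicit false

namespace Pool.Agent.Helper87.VM

open MvPolynomial Pool.Agent.Helper48.VMRT

/-- The gradient at `x`, as a linear map. -/
noncomputable def floc_grad {κ : Type} (x : κ → ℂ) : MvPolynomial κ ℂ →ₗ[ℂ] (κ → ℂ) where
  toFun p := fun o => eval x (pderiv o p)
  map_add' p q := by funext o; simp
  map_smul' a p := by funext o; simp

theorem floc_grad_apply {κ : Type} (x : κ → ℂ) (p : MvPolynomial κ ℂ) (o : κ) :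
    floc_grad x p o = eval x (pderiv o p) := rfl

theorem floc_grad_mul {κ : Type} (x : κ → ℂ) (p q : MvPolynomial κ ℂ) :
    floc_grad x (p * q) = eval x p • floc_grad x q + eval x q • floc_grad x p := by
  funext o
  simp only [floc_grad_apply, Derivation.leibniz, smul_eq_mul, map_add, map_mul, Pi.add_apply,
    Pi.smul_apply]

/-- The generators near a point. -/
noncomputable def floc_g {w c : ℕ} (F' : Fin c → MvPolynomial (Fin w) ℂ) :
    Fin (c + 1) → MvPolynomial (Option (Fin w)) ℂ :=
  Fin.cons (X none) (fun i => rename some (F' i))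

theorem floc_split {w : ℕ} (p : MvPolynomial (Option (Fin w)) ℂ) :
    ∃ q : MvPolynomial (Option (Fin w)) ℂ, p = X none * q +
      rename some (aeval (fun o : Option (Fin w) =>
        (Option.elim o 0 X : MvPolynomial (Fin w) ℂ)) p) := by
  set I : Ideal (MvPolynomial (Option (Fin w)) ℂ) := Ideal.span {X none} with hI
  set φ : MvPolynomial (Option (Fin w)) ℂ →ₐ[ℂ] MvPolynomial (Option (Fin w)) ℂ :=
    (rename some).comp (aeval (fun o : Option (Fin w) =>
        (Option.elim o 0 X : MvPolynomial (Fin w) ℂ))) with hφ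
  have h : (Ideal.Quotient.mkₐ ℂ I).comp φ = Ideal.Quotient.mkₐ ℂ I := by
    apply MvPolynomial.algHom_ext
    intro o
    cases o with
    | none =>
      have : (X none : MvPolynomial (Option (Fin w)) ℂ) ∈ I := Ideal.mem_span_singleton_self _
      simp only [hφ, AlgHom.comp_apply, aeval_X, Option.elim, map_zero, Ideal.Quotient.mkₐ_eq_mk]
      exact (Ideal.Quotient.eq_zero_iff_mem.2 this).symm
    | some i =>
      simp only [hφ, AlgHom.comp_apply, aeval_X, Option.elim, rename_X]
  have h2 : Ideal.Quotient.mk I (φ p) = Ideal.Quotient.mk I p := by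
    have := congrArg (fun f => f p) h
    simpa using this
  have h3 : p - φ p ∈ I := Ideal.Quotient.eq.1 h2.symm
  rw [hI, Ideal.mem_span_singleton] at h3
  obtain ⟨q, hq⟩ := h3
  refine ⟨q, ?_⟩
  have : φ p = rename some (aeval (fun o : Option (Fin w) =>
        (Option.elim o 0 X : MvPolynomial (Fin w) ℂ)) p) := rfl
  rw [← this, ← hq]
  ring

theorem floc_mem_AI {w : ℕ} {Z : Set (Fin w → ℂ)} {p : MvPolynomial (Option (Fin w)) ℂ} :
    p ∈ AI Z ↔ ∀ z ∈ Z, eval (ov 0 z) p = 0 := by
  rw [AI, mem_vI]
  constructor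
  · intro h z hz
    exact h (ov 0 z) ⟨rfl, hz⟩
  · rintro h x ⟨h0, hx⟩
    have := h _ hx
    rw [← ov_eta x, h0]
    exact this

theorem floc_rename_mem {w : ℕ} {Z : Set (Fin w → ℂ)} {f : MvPolynomial (Fin w) ℂ}
    (hf : f ∈ vanishingIdeal ℂ Z) : rename some f ∈ AI Z := by
  rw [floc_mem_AI]
  intro z hz
  rw [eval_rename]
  exact mem_vI.1 hf z hz

theorem floc_X_mem {w : ℕ} (Z : Set (Fin w → ℂ)) :
    (X none : MvPolynomial (Option (Fin w)) ℂ) ∈ AI Z := by
  rw [floc_mem_AI]
  intro z _
  rw [eval_X]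
  rfl

theorem floc_g_mem {w c : ℕ} {Z : Set (Fin w → ℂ)} {F' : Fin c → MvPolynomial (Fin w) ℂ}
    (hF : ∀ i, F' i ∈ vanishingIdeal ℂ Z) (k : Fin (c + 1)) : floc_g F' k ∈ AI Z := by
  refine Fin.cases ?_ (fun i => ?_) k
  · exact floc_X_mem Z
  · exact floc_rename_mem (hF i)

/-- Localized membership. -/
theorem floc_loc {w c : ℕ} {Z : Set (Fin w → ℂ)} {F' : Fin c → MvPolynomial (Fin w) ℂ}
    {h' : MvPolynomial (Fin w) ℂ}
    (hh : ∀ p ∈ vanishingIdeal ℂ Z, h' * p ∈ Ideal.span (Set.range F'))
    {p : MvPolynomial (Option (Fin w)) ℂ} (hp : p ∈ AI Z) :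
    ∃ B : Fin (c + 1) → MvPolynomial (Option (Fin w)) ℂ,
      rename some h' * p = ∑ k, B k * floc_g F' k := by
  obtain ⟨q, hq⟩ := floc_split p
  set p0 : MvPolynomial (Fin w) ℂ := aeval (fun o : Option (Fin w) =>
        (Option.elim o 0 X : MvPolynomial (Fin w) ℂ)) p with hp0
  have h0 : p0 ∈ vanishingIdeal ℂ Z := by
    rw [mem_vI]
    intro y hy
    rw [hp0, eval_aeval]
    have : ev (fun o : Option (Fin w) => (Option.elim o 0 X : MvPolynomial (Fin w) ℂ)) y =
        ov 0 y := by
      funext o
      cases o with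
      | none => simp [ev, ov]
      | some i => simp [ev, ov]
    rw [this]
    exact floc_mem_AI.1 hp y hy
  obtain ⟨b, hb⟩ := Ideal.mem_span_range_iff_exists_fun.1 (hh p0 h0)
  refine ⟨Fin.cons (rename some h' * q) (fun i => rename some (b i)), ?_⟩
  rw [Fin.sum_univ_succ]
  simp only [floc_g, Fin.cons_zero, Fin.cons_succ]
  have : ∑ i, rename some (b i) * rename some (F' i) =
      (rename some (h' * p0) : MvPolynomial (Option (Fin w)) ℂ) := by
    rw [← hb, map_sum]
    exact Finset.sum_congr rfl fun i _ => (map_mul _ _ _).symm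
  rw [this, map_mul]
  conv_lhs => rw [hq]
  ring

theorem floc_grad_g {w c : ℕ} (z : Fin w → ℂ) (F' : Fin c → MvPolynomial (Fin w) ℂ)
    (hl : LinearIndependent ℂ (fun i => (fun j => eval z (pderiv j (F' i)) : Fin w → ℂ))) :
    LinearIndependent ℂ (fun k => floc_grad (ov 0 z) (floc_g F' k)) := by
  rw [Fintype.linearIndependent_iff] at hl ⊢
  intro a ha
  have hn : ∀ i, floc_grad (ov 0 z) (rename some (F' i)) none = 0 := by
    intro i
    rw [floc_grad_apply]
    have : pderiv (none : Option (Fin w)) (rename some (F' i)) = 0 := by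
      apply pderiv_eq_zero_of_notMem_vars
      intro h
      have := vars_rename some (F' i) h
      simp at this
    rw [this, map_zero]
  have hs : ∀ i j, floc_grad (ov 0 z) (rename some (F' i)) (some j) =
      eval z (pderiv j (F' i)) := by
    intro i j
    rw [floc_grad_apply, pderiv_rename (Option.some_injective _), eval_rename]
    rfl
  rw [Fin.sum_univ_succ] at ha
  simp only [floc_g, Fin.cons_zero, Fin.cons_succ] at ha
  have h0 : a 0 = 0 := by
    have := congrFun ha none
    simp only [Pi.add_apply, Pi.smul_apply, Finset.sum_apply, hn, Pi.zero_apply,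
      floc_grad_apply, pderiv_X_self, map_one, smul_eq_mul, mul_one, mul_zero,
      Finset.sum_const_zero, add_zero] at this
    exact this
  have h1 := hl (fun i => a i.succ) (by
    funext j
    have := congrFun ha (some j)
    simp only [Pi.add_apply, Pi.smul_apply, Finset.sum_apply, hs, h0, zero_smul,
      zero_add, Pi.zero_apply] at this
    simpa using this)
  intro k
  refine Fin.cases h0 (fun i => h1 i) k

theorem floc_grad_mem {w c : ℕ} {Z : Set (Fin w → ℂ)} {F' : Fin c → MvPolynomial (Fin w) ℂ}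
    {h' : MvPolynomial (Fin w) ℂ} (hF : ∀ i, F' i ∈ vanishingIdeal ℂ Z) {z : Fin w → ℂ}
    (hz : z ∈ Z) {p : MvPolynomial (Option (Fin w)) ℂ} (hp : p ∈ AI Z)
    {B : Fin (c + 1) → MvPolynomial (Option (Fin w)) ℂ}
    (hB : rename some h' * p = ∑ k, B k * floc_g F' k) :
    eval z h' • floc_grad (ov 0 z) p =
      ∑ k, eval (ov 0 z) (B k) • floc_grad (ov 0 z) (floc_g F' k) := by
  have h := congrArg (floc_grad (ov 0 z)) hB
  rw [floc_grad_mul, map_sum, floc_mem_AI.1 hp z hz, zero_smul, add_zero, eval_rename] at h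
  have e : eval (ov 0 z ∘ some) h' = eval z h' := rfl
  rw [e] at h
  rw [h]
  refine Finset.sum_congr rfl fun k _ => ?_
  rw [floc_grad_mul, floc_mem_AI.1 (floc_g_mem hF k) z hz, zero_smul, add_zero]

theorem floc_span {ν : Type} {w : ℕ} {Z : Set (Fin w → ℂ)} {a : ℕ}
    {F : ν → MvPolynomial (Option (Fin w)) ℂ}
    (hs : ∀ p ∈ AI Z, HomE a p → p ∈ Submodule.span ℂ (Set.range F))
    (hg : AI Z = Ideal.span {p | p ∈ AI Z ∧ ∃ d ≤ a, HomE d p}) {z : Fin w → ℂ} (hz : z ∈ Z)
    (hz0 : z ≠ 0) {p : MvPolynomial (Option (Fin w)) ℂ} (hp : p ∈ AI Z) :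
    floc_grad (ov 0 z) p ∈ Submodule.span ℂ (Set.range fun j => floc_grad (ov 0 z) (F j)) := by
  set x0 := ov 0 z with hx0
  have hspan : ∀ p ∈ Submodule.span ℂ (Set.range F),
      floc_grad x0 p ∈ Submodule.span ℂ (Set.range fun j => floc_grad x0 (F j)) := by
    intro p hp
    have h1 : floc_grad x0 p ∈ (Submodule.span ℂ (Set.range F)).map (floc_grad x0) :=
      Submodule.mem_map_of_mem hp
    rw [Submodule.map_span, ← Set.range_comp] at h1
    exact h1
  rw [hg] at hp
  refine Submodule.span_induction ?_ ?_ ?_ ?_ hp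
  · rintro p ⟨hp, d, hd, hh⟩
    obtain ⟨i, hi⟩ := Function.ne_iff.1 hz0
    have h1 : X (some i) ^ (a - d) * p ∈ AI Z := Ideal.mul_mem_left _ _ hp
    have h2 : HomE a (X (some i) ^ (a - d) * p) := by
      have := ((homE_X (some i)).pow (a - d)).mul hh
      rwa [one_mul, Nat.sub_add_cancel hd] at this
    have h3 := hspan _ (hs _ h1 h2)
    rw [floc_grad_mul, floc_mem_AI.1 hp z hz, zero_smul, add_zero, map_pow, eval_X] at h3
    have h4 : x0 (some i) ^ (a - d) ≠ 0 := pow_ne_zero _ hi
    have h5 := Submodule.smul_mem _ (x0 (some i) ^ (a - d))⁻¹ h3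
    rwa [smul_smul, inv_mul_cancel₀ h4, one_smul] at h5
  · rw [map_zero]; exact Submodule.zero_mem _
  · intro p q _ _ h1 h2
    rw [map_add]; exact Submodule.add_mem _ h1 h2
  · intro q p hp h1
    replace hp : p ∈ AI Z := by rw [hg]; exact hp
    rw [smul_eq_mul, floc_grad_mul, floc_mem_AI.1 hp z hz, zero_smul, add_zero]
    exact Submodule.smul_mem _ _ h1

theorem st_FLOC : ST_FLOC := by
  intro ν _ w Z a F _ _ hsm hFm _ hs hg z hz hz0
  classical
  obtain ⟨c0, F', hF', hl, h', hh0, hh⟩ := hsm z hz hz0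
  set x0 := ov 0 z with hx0
  have hlg := floc_grad_g z F' hl
  -- the span of the differentials
  have hW : Submodule.span ℂ (Set.range fun j => floc_grad x0 (F j)) =
      Submodule.span ℂ (Set.range fun k => floc_grad x0 (floc_g F' k)) := by
    apply le_antisymm
    · rw [Submodule.span_le]
      rintro _ ⟨j, rfl⟩
      obtain ⟨B, hB⟩ := floc_loc hh (hFm j)
      have h1 := floc_grad_mem hF' hz (hFm j) hB
      have h2 : floc_grad x0 (F j) = (eval z h')⁻¹ •
          ∑ k, eval (ov 0 z) (B k) • floc_grad (ov 0 z) (floc_g F' k) := by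
        rw [← h1, smul_smul, inv_mul_cancel₀ hh0, one_smul]
      show floc_grad x0 (F j) ∈ _
      rw [h2]
      exact Submodule.smul_mem _ _ (Submodule.sum_mem _ fun k _ =>
        Submodule.smul_mem _ _ (Submodule.subset_span ⟨k, rfl⟩))
    · rw [Submodule.span_le]
      rintro _ ⟨k, rfl⟩
      exact floc_span hs hg hz hz0 (floc_g_mem hF' k)
  obtain ⟨κ, e, _, he1, he2⟩ := exists_linearIndependent' ℂ (fun j => floc_grad x0 (F j))
  have : Finite κ := he2.finite
  cases nonempty_fintype κ
  have hcard : Fintype.card κ = c0 + 1 := by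
    have h1 := finrank_span_eq_card he2
    have h2 := finrank_span_eq_card hlg
    rw [he1, hW] at h1
    rw [Fintype.card_fin] at h2
    exact h1.symm.trans h2
  let E : Fin (c0 + 1) ≃ κ := (Fintype.equivFinOfCardEq hcard).symm
  set I : Fin (c0 + 1) → ν := fun i => e (E i) with hI
  have hli : LinearIndependent ℂ (fun i => floc_grad x0 (F (I i))) :=
    he2.comp E E.injective
  refine ⟨c0 + 1, I, hli, ?_⟩
  have hB : ∀ j, ∃ B : Fin (c0 + 1) → MvPolynomial (Option (Fin w)) ℂ,
      rename some h' * F j = ∑ k, B k * floc_g F' k := fun j => floc_loc hh (hFm j)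
  choose B hB using hB
  set A : Matrix (Fin (c0 + 1)) (Fin (c0 + 1)) (MvPolynomial (Option (Fin w)) ℂ) :=
    Matrix.of fun i k => B (I i) k with hA
  have hdet : eval x0 A.det ≠ 0 := by
    rw [RingHom.map_det]
    intro h0
    obtain ⟨v, hv0, hv⟩ := Matrix.exists_vecMul_eq_zero_iff.2 h0
    apply hv0
    rw [Fintype.linearIndependent_iff] at hli
    funext i
    refine hli v ?_ i
    have h1 : eval z h' • ∑ i, v i • floc_grad x0 (F (I i)) = 0 := by
      rw [Finset.smul_sum]
      have h2 : ∀ i, eval z h' • v i • floc_grad x0 (F (I i)) =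
          ∑ k, (v i * eval x0 (B (I i) k)) • floc_grad x0 (floc_g F' k) := by
        intro i
        rw [smul_comm, floc_grad_mem hF' hz (hFm (I i)) (hB (I i)), Finset.smul_sum]
        exact Finset.sum_congr rfl fun k _ => smul_smul _ _ _
      rw [Finset.sum_congr rfl fun i _ => h2 i, Finset.sum_comm]
      refine Finset.sum_eq_zero fun k _ => ?_
      rw [← Finset.sum_smul]
      have h3 := congrFun hv k
      simp only [Matrix.vecMul, dotProduct, RingHom.mapMatrix_apply, Matrix.map_apply, hA,
        Matrix.of_apply, Pi.zero_apply] at h3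
      rw [h3, zero_smul]
    rcases smul_eq_zero.1 h1 with h | h
    · exact absurd h hh0
    · exact h
  refine ⟨A.det * rename some h', fun j i => ∑ k, B j k * (A.adjugate k i * rename some h'),
    ?_, ?_⟩
  · rw [map_mul]
    refine mul_ne_zero hdet ?_
    rw [eval_rename]
    exact hh0
  · intro j
    have hk : ∀ k, A.det * floc_g F' k =
        ∑ i, A.adjugate k i * (rename some h' * F (I i)) := by
      intro k
      have h1 : A.adjugate * A = A.det • (1 : Matrix _ _ _) := Matrix.adjugate_mul A
      have h2 : ∀ l, ∑ i, A.adjugate k i * A i l = if k = l then A.det else 0 := by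
        intro l
        have := congrFun (congrFun h1 k) l
        rw [Matrix.mul_apply] at this
        rw [this, Matrix.smul_apply, Matrix.one_apply]
        simp
      simp only [hB, Finset.mul_sum]
      rw [Finset.sum_comm]
      have h3 : ∀ l, ∑ i, A.adjugate k i * (B (I i) l * floc_g F' l) =
          (if k = l then A.det else 0) * floc_g F' l := by
        intro l
        rw [← h2 l, Finset.sum_mul]
        exact Finset.sum_congr rfl fun i _ => by rw [hA, Matrix.of_apply]; ring
      rw [Finset.sum_congr rfl fun l _ => h3 l]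
      simp
    calc A.det * rename some h' * F j = A.det * ∑ k, B j k * floc_g F' k := by
          rw [mul_assoc, hB]
      _ = ∑ k, B j k * (A.det * floc_g F' k) := by
          rw [Finset.mul_sum]
          exact Finset.sum_congr rfl fun k _ => by ring
      _ = ∑ k, ∑ i, B j k * (A.adjugate k i * rename some h') * F (I i) := by
          refine Finset.sum_congr rfl fun k _ => ?_
          rw [hk, Finset.mul_sum]
          exact Finset.sum_congr rfl fun i _ => by ring
      _ = ∑ i, (∑ k, B j k * (A.adjugate k i * rename some h')) * F (I i) := by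
          rw [Finset.sum_comm]
          exact Finset.sum_congr rfl fun i _ => by rw [Finset.sum_mul]

end Pool.Agent.Helper87.VM
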